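import Mathlib

namespace Pool.Agent.Results.MP_1bbe3d_pr.NoMax

open Finset Real

/-- The transformed time `u(t) = τ + β (t - τ)`. -/
def uu (τ β t : ℝ) : ℝ := τ + β * (t - τ)

/-- The quantity `Q(α, β)`; failure times are `t 0 < ... < t (n1 + n2 - 1)`. -/
noncomputable def QQ (n n1 n2 : ℕ) (τ η : ℝ) (t : ℕ → ℝ) (α β : ℝ) : ℝ :=
  ∑ i ∈ range n1, t i ^ α + ∑ i ∈ Ico n1 (n1 + n2), uu τ β (t i) ^ α
    + ((n : ℝ) - (n1 + n2 : ℕ)) * uu τ β η ^ α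

/-- The log-likelihood. -/
noncomputable def ll (n n1 n2 : ℕ) (τ η : ℝ) (t : ℕ → ℝ) (α θ β : ℝ) : ℝ :=
  ((n1 + n2 : ℕ) : ℝ) * log α + (n2 : ℝ) * log β - ((n1 + n2 : ℕ) : ℝ) * α * log θ
    + (α - 1) * (∑ i ∈ range n1, log (t i) + ∑ i ∈ Ico n1 (n1 + n2), log (uu τ β (t i)))
    - θ ^ (-α) * QQ n n1 n2 τ η t α β

/-- An admissible data set. -/
structure Data (n n1 n2 : ℕ) (τ η : ℝ) (t : ℕ → ℝ) : Prop where
  npos : 1 ≤ n
  tau_pos : 0 < τ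
  tau_lt : τ < η
  size : n1 + n2 ≤ n
  incr : ∀ i j, i < j → j < n1 + n2 → t i < t j
  first : ∀ i, i < n1 → 0 < t i ∧ t i ≤ τ
  second : ∀ i, n1 ≤ i → i < n1 + n2 → τ < t i ∧ t i ≤ η

noncomputable def g (α k z : ℝ) : ℝ := log α + log k + (α - 1) * log z - z ^ α

noncomputable def tt (i : ℕ) : ℝ :=
  if i = 0 then 1 + 1 / 10 ^ 7 else if i = 1 then 1 + 2 / 10 ^ 7 else 2 + 2 / 10 ^ 7

lemma ll_eq (α θ β : ℝ) (hθ : 0 < θ) (hβ : 0 < β) :
    ll 3 0 3 1 3 tt α θ β = g α (β / θ) ((1 + β * (1 / 10 ^ 7)) / θ)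
      + g α (β / θ) ((1 + β * (2 / 10 ^ 7)) / θ) + g α (β / θ) ((1 + β * (1 + 2 / 10 ^ 7)) / θ) := by
  have e0 : uu 1 β (tt 0) = 1 + β * (1 / 10 ^ 7) := by simp [uu, tt]
  have e1 : uu 1 β (tt 1) = 1 + β * (2 / 10 ^ 7) := by simp [uu, tt]
  have e2 : uu 1 β (tt 2) = 1 + β * (1 + 2 / 10 ^ 7) := by
    simp only [uu, tt]
    norm_num
  have hs : ∀ F : ℕ → ℝ, ∑ i ∈ Ico 0 (0 + 3), F i = F 0 + F 1 + F 2 := by
    intro F
    simp [Finset.sum_range_succ]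
  unfold ll QQ g
  rw [hs, hs, e0, e1, e2]
  have p0 : 0 < 1 + β * (1 / 10 ^ 7) := by positivity
  have p1 : 0 < 1 + β * (2 / 10 ^ 7) := by positivity
  have p2 : 0 < 1 + β * (1 + 2 / 10 ^ 7) := by positivity
  rw [log_div hβ.ne' hθ.ne', log_div p0.ne' hθ.ne', log_div p1.ne' hθ.ne', log_div p2.ne' hθ.ne',
    div_rpow p0.le hθ.le, div_rpow p1.le hθ.le, div_rpow p2.le hθ.le, rpow_neg hθ.le]
  simp only [Finset.range_zero, Finset.sum_empty]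
  push_cast
  ring

lemma g_anti {α k z z' : ℝ} (h0 : 0 < α) (h1 : α ≤ 1) (hz : 0 < z') (hzz : z' < z) :
    g α k z < g α k z' := by
  unfold g
  have a := log_le_log hz hzz.le
  have b := rpow_lt_rpow hz.le hzz h0
  nlinarith

lemma g_big {α k z1 z2 : ℝ} (h1 : 1 < α) (hk : 0 < k) (hz : 0 < z1) (hzz : z1 ≤ z2) :
    g α k z1 + g α k z2 + g α k (z2 + k) ≤ 4 := by
  unfold g
  have hz2 : 0 < z2 := by linarith
  have hz3 : 0 < z2 + k := by linarith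
  have a := log_le_log hz hzz
  have b1 := rpow_pos_of_pos hz α
  have b2 := rpow_pos_of_pos hz2 α
  have b3 := rpow_pos_of_pos hz3 α
  have c1 : log ((z2 + k) ^ α / 3) ≤ (z2 + k) ^ α / 3 - 1 := log_le_sub_one_of_pos (by positivity)
  rw [log_div b3.ne' (by norm_num), log_rpow hz3] at c1
  have c2 : log 3 ≤ 3 - 1 := log_le_sub_one_of_pos (by norm_num)
  set w := k / (z2 + k) with hw
  have w0 : 0 < w := by positivity
  have w1 : w ≤ 1 := by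
    rw [hw, div_le_one hz3]
    linarith
  have c3 : log (z2 / (z2 + k)) ≤ z2 / (z2 + k) - 1 := log_le_sub_one_of_pos (by positivity)
  have c4 : z2 / (z2 + k) - 1 = -w := by
    rw [hw]
    field_simp
    ring
  rw [log_div hz2.ne' hz3.ne', c4] at c3
  have c5 : log (α * w * (2 / 3)) ≤ α * w * (2 / 3) - 1 := log_le_sub_one_of_pos (by positivity)
  rw [log_mul (by positivity) (by norm_num), log_mul (by positivity) w0.ne'] at c5
  have c6 : log w = log k - log (z2 + k) := log_div hk.ne' hz3.ne'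
  have c7 : log (2 / 3 : ℝ) = - log (3 / 2) := by
    rw [← log_inv]
    norm_num
  have c8 : log (3 / 2 : ℝ) ≤ 3 / 2 - 1 := log_le_sub_one_of_pos (by norm_num)
  have d1 := mul_le_mul_of_nonneg_left a (by linarith : 0 ≤ α - 1)
  have d2 := mul_le_mul_of_nonneg_left c3 (by linarith : 0 ≤ α - 1)
  nlinarith

lemma half_le {z : ℝ} (hz : 0 ≤ z) : z ^ (1 / 2 : ℝ) ≤ (1 + z) / 2 := by
  rw [← sqrt_eq_rpow]
  nlinarith [sq_sqrt hz, sq_nonneg (√z - 1)]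

lemma point : 4 < ll 3 0 3 1 3 tt (1 / 2) (10 ^ 7) (10 ^ 7) := by
  rw [ll_eq _ _ _ (by norm_num) (by norm_num)]
  unfold g
  have l2 := log_two_lt_d9
  have l3 := log_two_gt_d9
  have h1 : log (1 / 2 : ℝ) = - log 2 := by
    rw [← log_inv]
    norm_num
  have h2 : log ((10:ℝ) ^ 7 / 10 ^ 7) = 0 := by norm_num
  have h3 : log ((2:ℝ) ^ 20)⁻¹ = - (20 * log 2) := by
    rw [log_inv, log_pow]
    norm_num
  have a1 : log (((1:ℝ) + 10 ^ 7 * (1 / 10 ^ 7)) / 10 ^ 7) ≤ log ((2:ℝ) ^ 20)⁻¹ :=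
    log_le_log (by norm_num) (by norm_num)
  have a2 : log (((1:ℝ) + 10 ^ 7 * (2 / 10 ^ 7)) / 10 ^ 7) ≤ log ((2:ℝ) ^ 20)⁻¹ :=
    log_le_log (by norm_num) (by norm_num)
  have a3 : log (((1:ℝ) + 10 ^ 7 * (1 + 2 / 10 ^ 7)) / 10 ^ 7) ≤ log 2 :=
    log_le_log (by norm_num) (by norm_num)
  have b1 := half_le (z := ((1:ℝ) + 10 ^ 7 * (1 / 10 ^ 7)) / 10 ^ 7) (by norm_num)
  have b2 := half_le (z := ((1:ℝ) + 10 ^ 7 * (2 / 10 ^ 7)) / 10 ^ 7) (by norm_num)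
  have b3 := half_le (z := ((1:ℝ) + 10 ^ 7 * (1 + 2 / 10 ^ 7)) / 10 ^ 7) (by norm_num)
  have c1 : (1 + ((1:ℝ) + 10 ^ 7 * (1 / 10 ^ 7)) / 10 ^ 7) / 2 ≤ 1 := by norm_num
  have c2 : (1 + ((1:ℝ) + 10 ^ 7 * (2 / 10 ^ 7)) / 10 ^ 7) / 2 ≤ 1 := by norm_num
  have c3 : (1 + ((1:ℝ) + 10 ^ 7 * (1 + 2 / 10 ^ 7)) / 10 ^ 7) / 2 ≤ 2 := by norm_num
  rw [h1, h2]
  linarith

theorem result : ∃ (n n1 n2 : ℕ) (τ η : ℝ) (t : ℕ → ℝ), Data n n1 n2 τ η t ∧ n2 ≠ 0 ∧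
    3 ≤ n1 + n2 ∧ ∀ α θ β : ℝ, 0 < α → 0 < θ → 0 < β →
      ∃ α' θ' β' : ℝ, 0 < α' ∧ 0 < θ' ∧ 0 < β' ∧
        ll n n1 n2 τ η t α θ β < ll n n1 n2 τ η t α' θ' β' := by
  refine ⟨3, 0, 3, 1, 3, tt, ⟨by norm_num, by norm_num, by norm_num, by norm_num, ?_, ?_, ?_⟩,
    by norm_num, by norm_num, ?_⟩
  · intro i j hij hj
    have : j < 3 := by omega
    interval_cases j <;> interval_cases i <;> norm_num [tt]
  · intro i hi
    omega
  · intro i _ hi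
    have : i < 3 := by omega
    interval_cases i <;> norm_num [tt]
  · intro α θ β hα hθ hβ
    rcases le_or_gt α 1 with h | h
    · refine ⟨α, 2 * θ, 2 * β, hα, by positivity, by positivity, ?_⟩
      rw [ll_eq _ _ _ hθ hβ, ll_eq _ _ _ (by positivity) (by positivity)]
      have e : 2 * β / (2 * θ) = β / θ := by field_simp
      rw [e]
      have key : ∀ s : ℝ, 0 < s →
          g α (β / θ) ((1 + β * s) / θ) < g α (β / θ) ((1 + 2 * β * s) / (2 * θ)) := by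
        intro s hs
        refine g_anti hα h (by positivity) ?_
        rw [div_lt_div_iff₀ (by positivity) hθ]
        nlinarith
      have k1 := key (1 / 10 ^ 7) (by norm_num)
      have k2 := key (2 / 10 ^ 7) (by norm_num)
      have k3 := key (1 + 2 / 10 ^ 7) (by norm_num)
      linarith
    · refine ⟨1 / 2, 10 ^ 7, 10 ^ 7, by norm_num, by norm_num, by norm_num, ?_⟩
      refine lt_of_le_of_lt ?_ point
      rw [ll_eq _ _ _ hθ hβ]
      have e : (1 + β * (1 + 2 / 10 ^ 7)) / θ = (1 + β * (2 / 10 ^ 7)) / θ + β / θ := by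
        field_simp
        ring
      rw [e]
      refine g_big h (by positivity) (by positivity) ?_
      apply div_le_div_of_nonneg_right _ hθ.le
      nlinarith

end Pool.Agent.Results.MP_1bbe3d_pr.NoMax
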